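import Pool.Agent.H39.HW.SStm

/-!
# Project HW, scheme side: part KKR (rounding by telescoping floors)
-/

set_option autoImplicit false
open Classical Finset

namespace Pool.Agent.H93.HW

open Pool.Agent.H39.HW Pool.Agent.H39.HW.Sc

theorem floor_diff_aux (A d : ℝ) (hA : 0 ≤ A) (hd : 0 ≤ d) :
    |((⌊A + d⌋₊ - ⌊A⌋₊ : ℕ) : ℝ) - d| ≤ 1 := by
  have hm : ⌊A⌋₊ ≤ ⌊A + d⌋₊ := Nat.floor_mono (by linarith)
  rw [Nat.cast_sub hm]
  have h1 := Nat.floor_le hA
  have h2 := Nat.lt_floor_add_one A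
  have h3 := Nat.floor_le (by linarith : 0 ≤ A + d)
  have h4 := Nat.lt_floor_add_one (A + d)
  rw [abs_le]
  constructor <;> linarith

theorem R_card_le (x : Prm) : x.R.card ≤ x.B := by
  unfold Prm.R Prm.B Prm.b1
  rw [Nat.card_Icc]
  omega

theorem t_KKR (h : S_UPB) : S_KKR := by
  intro x hx P hP
  obtain ⟨hrow, hcol⟩ := h x hx P hP
  have main : ∀ a ∈ x.R, ∑ β ∈ range x.B, x.kk P a β = x.t ∧
    (∀ β, |(x.kk P a β : ℝ) - x.t * x.uP P a β| ≤ 1) ∧
    (∀ β, x.uP P a β = 0 → x.kk P a β = 0) ∧ (∀ β, x.B ≤ β → x.kk P a β = 0) := by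
    intro a ha
    obtain ⟨h0, h1, h2⟩ := hrow a ha
    have hz : ∀ β, x.uP P a β = 0 → x.kk P a β = 0 := by
      intro β hβ
      unfold Prm.kk
      rw [Finset.sum_range_succ, hβ, add_zero, Nat.sub_self]
    have hT0 : ∀ β, 0 ≤ ∑ b ∈ range β, x.uP P a b := fun β => Finset.sum_nonneg fun b _ => h0 b
    have ht : (0 : ℝ) ≤ x.t := Nat.cast_nonneg _
    refine ⟨?_, ?_, hz, ?_⟩
    · have hmono : Monotone fun β => ⌊(x.t : ℝ) * ∑ b ∈ range β, x.uP P a b⌋₊ := by
        apply monotone_nat_of_le_succ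
        intro n
        apply Nat.floor_mono
        apply mul_le_mul_of_nonneg_left _ ht
        rw [Finset.sum_range_succ]
        linarith [h0 n]
      have := Finset.sum_range_tsub hmono x.B
      unfold Prm.kk
      rw [this, h1]
      simp
    · intro β
      unfold Prm.kk
      rw [Finset.sum_range_succ, mul_add]
      exact floor_diff_aux _ _ (mul_nonneg ht (hT0 β)) (mul_nonneg ht (h0 β))
    · intro β hβ
      apply hz
      by_contra hne
      have hc := (h2 β hne).1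
      unfold Prm.cls Dat.cls at hc
      simp only [Finset.mem_sdiff, Finset.mem_erase, Finset.mem_filter, Finset.mem_range] at hc
      have : β < x.d0.B := hc.1.2.1
      have h3 : x.d0.B = x.B := rfl
      omega
  refine ⟨main, ?_⟩
  intro β hβ
  have h1 : (∑ a ∈ x.R, x.kk P a β : ℝ) ≤ ∑ a ∈ x.R, (x.t * x.uP P a β + 1) := by
    apply Finset.sum_le_sum
    intro a ha
    have := abs_le.1 ((main a ha).2.1 β)
    linarith [this.2]
  rw [Finset.sum_add_distrib, ← Finset.mul_sum, Finset.sum_const, nsmul_eq_mul, mul_one] at h1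
  have h2 := hcol β hβ
  have ht : (0 : ℝ) ≤ x.t := Nat.cast_nonneg _
  have h3 := mul_le_mul_of_nonneg_left h2 ht
  have h4 : (x.R.card : ℝ) ≤ x.B := by exact_mod_cast R_card_le x
  have hL : (1 : ℝ) ≤ (x.L : ℝ) := by
    have hn1 := hx.n1
    have he1 := hx.e1
    have hLn := hx.Ln
    have hn0 := hx.n0
    have hη : x.η ≤ 1 := by nlinarith
    by_contra hcon
    push Not at hcon
    have : (x.L : ℝ) < 1 := hcon
    have hL0 : (0 : ℝ) ≤ x.L := Nat.cast_nonneg _
    nlinarith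
  have hB : (0 : ℝ) ≤ x.B := Nat.cast_nonneg _
  have h5 : 10 ^ 9 * (x.B : ℝ) ≤ x.ε * x.t := by
    have := hx.t2
    have hL2 : (1 : ℝ) ≤ (x.L : ℝ) ^ 2 := by nlinarith
    nlinarith
  nlinarith

end Pool.Agent.H93.HW
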