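import Pool.Agent.H39.HW.SStm

/-!
# Project HW, scheme side: parts KTB and VF
-/

set_option autoImplicit false
open Classical Finset

namespace Pool.Agent.H93.HW

open Pool.Agent.H39.HW Pool.Agent.H39.HW.Sc

theorem par_h (x : Prm) (hx : Par x) : (10000 : ℝ) ≤ x.h := by
  have h1 := hx.h1
  have he := hx.e1
  have hh : (0 : ℝ) ≤ x.h := Nat.cast_nonneg _
  nlinarith

theorem par_L (x : Prm) (hx : Par x) : (10000 : ℝ) ≤ x.L := by
  have h1 := par_h x hx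
  have : (x.L : ℝ) = 8 * x.h ^ 2 + 4 * x.h := by rw [hx.L1]; push_cast; ring
  rw [this]
  nlinarith

/-- `20 μ ≤ θ / (10 ^ 7 L)` and more -/
theorem par_mu (x : Prm) (hx : Par x) : 10 ^ 9 * x.L * x.μ ≤ x.θ := by
  have h1 := hx.u1
  have he := hx.e1
  have he0 := hx.e0
  have hL := par_L x hx
  have hm := hx.m0
  have ht := hx.t0
  have h3 : (x.L : ℝ) ≤ (x.L : ℝ) ^ 4 := by
    have : (1 : ℝ) ≤ x.L := by linarith
    exact le_self_pow₀ this (by norm_num)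
  have h4 : 10 ^ 9 * (x.L : ℝ) * x.μ ≤ 10 ^ 9 * (x.L : ℝ) ^ 4 * x.μ := by
    apply mul_le_mul_of_nonneg_right _ hm.le
    linarith
  nlinarith

theorem par_t (x : Prm) (hx : Par x) : 10 ^ 8 * (x.L : ℝ) ^ 2 ≤ x.t * x.μ := by
  have h1 := hx.t2
  have he := hx.e1
  have he0 := hx.e0
  have hm := hx.m0
  have hm1 := hx.m1
  have hn := hx.n1
  have hL := par_L x hx
  have hMB : (x.M : ℝ) ≤ x.B := by
    have : x.M ≤ x.B := by unfold Prm.B; omega
    exact_mod_cast this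
  have hBm : 1 / 2 ≤ (x.B : ℝ) * x.μ := by
    have h2 := (abs_le.1 hm1).1
    nlinarith
  have ht : (0 : ℝ) ≤ x.t := Nat.cast_nonneg _
  have h5 : x.ε * x.t ≤ x.t := by nlinarith
  have h6 : 10 ^ 9 * (x.L : ℝ) ^ 2 * x.B * x.μ ≤ x.t * x.μ :=
    mul_le_mul_of_nonneg_right (h1.trans h5) hm.le
  have h7 : 10 ^ 9 * (x.L : ℝ) ^ 2 * (1 / 2) ≤ 10 ^ 9 * (x.L : ℝ) ^ 2 * (x.B * x.μ) :=
    mul_le_mul_of_nonneg_left hBm (by positivity)
  nlinarith [sq_nonneg (x.L : ℝ)]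

/-- bounds for the total demand of a row -/
theorem par_Dt (hT : S_TOT) (x : Prm) (hx : Par x) (a : ℕ) (ha : a ∈ x.R) :
    x.θ * (1 - 1 / (50 * x.L)) ≤ x.Dt a ∧ x.Dt a ≤ x.θ * (1 - 1 / (125 * x.L)) := by
  have h1 := abs_le.1 (hT x hx a ha)
  have hq2 := hx.q2
  have hq3 := hx.q3
  have hL := par_L x hx
  have hmu := par_mu x hx
  have ht := hx.t0
  have hL0 : (0 : ℝ) < x.L := by linarith
  have h20 : 20 * x.μ ≤ x.θ / (10 ^ 7 * x.L) := by
    rw [le_div_iff₀ (by positivity)]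
    nlinarith [hx.m0]
  have e1 : x.θ / (100 * x.L) = x.θ / x.L * (1 / 100) := by field_simp
  have e2 : x.θ / (60 * x.L) = x.θ / x.L * (1 / 60) := by field_simp
  have e3 : x.θ / (10 ^ 7 * x.L) = x.θ / x.L * (1 / 10 ^ 7) := by field_simp
  have e4 : x.θ * (1 - 1 / (50 * x.L)) = x.θ - x.θ / x.L * (1 / 50) := by field_simp
  have e5 : x.θ * (1 - 1 / (125 * x.L)) = x.θ - x.θ / x.L * (1 / 125) := by field_simp
  rw [e1] at hq2
  rw [e2] at hq3
  rw [e3] at h20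
  rw [e4, e5]
  have hp : 0 < x.θ / x.L := by positivity
  constructor
  · nlinarith [h1.1]
  · nlinarith [h1.2]

theorem kt_eq_sum (x : Prm) (hx : Par x) (φ : ℕ → ℕ → ℕ) (a β : ℕ) :
    (x.dat φ).kt a β = ∑ P ∈ range (2 * x.h), (x.dat φ).k P a β := by
  have ht0 : 0 < x.t := hx.t1
  unfold Dat.kt Dat.k
  have h1 := Finset.card_eq_sum_card_fiberwise (s := (range (x.dat φ).m).filter fun y =>
    (x.dat φ).φ y a = β) (t := range (2 * x.h)) (f := fun y => y / x.t) (by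
      intro y hy
      have hy2 : y ∈ (range (x.dat φ).m).filter fun y => (x.dat φ).φ y a = β := hy
      rw [Finset.mem_filter, Finset.mem_range] at hy2
      have hy3 : y < 2 * x.h * x.t := hy2.1
      have : y / x.t < 2 * x.h := Nat.div_lt_of_lt_mul (by rw [mul_comm]; exact hy3)
      simpa using this)
  rw [h1]
  apply Finset.sum_congr rfl
  intro P _
  rw [Finset.filter_filter]
  congr 1
  apply Finset.filter_congr
  intro y _
  constructor
  · rintro ⟨h2, h3⟩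
    exact ⟨h3, h2⟩
  · rintro ⟨h2, h3⟩
    exact ⟨h3, h2⟩

theorem t_KTB (hK : S_KKR) (hU : S_UPT) (hC : S_CLD) (hT : S_TOT) : S_KTB := by
  intro x hx φ hφ a ha
  have hk : ∀ P < 2 * x.h, ∀ β, (x.dat φ).k P a β = x.kk P a β := by
    intro P hP β
    exact hφ.2 P hP a ha β
  refine ⟨hk, ?_⟩
  intro β hβ
  have hkt : ((x.dat φ).kt a β : ℝ) = ∑ P ∈ range (2 * x.h), (x.kk P a β : ℝ) := by
    rw [kt_eq_sum x hx φ a β]
    push_cast
    apply Finset.sum_congr rfl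
    intro P hP
    rw [hk P (Finset.mem_range.1 hP)]
  have h1 : |((x.dat φ).kt a β : ℝ) - x.t * ∑ P ∈ range (2 * x.h), x.uP P a β| ≤ 2 * x.h := by
    rw [hkt, Finset.mul_sum, ← Finset.sum_sub_distrib]
    calc |∑ P ∈ range (2 * x.h), ((x.kk P a β : ℝ) - x.t * x.uP P a β)|
        ≤ ∑ P ∈ range (2 * x.h), |(x.kk P a β : ℝ) - x.t * x.uP P a β| :=
          Finset.abs_sum_le_sum_abs _ _
      _ ≤ ∑ P ∈ range (2 * x.h), (1 : ℝ) := by
          apply Finset.sum_le_sum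
          intro P hP
          exact ((hK x hx P (Finset.mem_range.1 hP)).1 a ha).2.1 β
      _ = 2 * x.h := by simp
  have h2 := hU x hx a ha β hβ
  have hdem := ((hC x hx a ha).2.2.2.2 β hβ).1
  obtain ⟨hD1, hD2⟩ := par_Dt hT x hx a ha
  have hh := par_h x hx
  have hL := par_L x hx
  have ht := hx.t0
  have hm := hx.m0
  have htm := par_t x hx
  have hL0 : (0 : ℝ) < x.L := by linarith
  have hD0 : 0 < x.Dt a := by
    have : (1 : ℝ) / (50 * x.L) ≤ 1 / 2 := by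
      rw [div_le_div_iff₀ (by positivity) (by norm_num)]
      linarith
    nlinarith
  have hD3 : x.Dt a ≤ x.θ := by
    have : (0 : ℝ) ≤ 1 / (125 * x.L) := by positivity
    nlinarith
  have ht0 : (0 : ℝ) ≤ x.t := Nat.cast_nonneg _
  -- z = dem / Dt
  set z := x.dem a β / x.Dt a with hz
  have hz1 : 3 / 10 * x.μ ≤ z := by
    rw [hz, le_div_iff₀ hD0]
    nlinarith
  have e1 : 2 * x.h * x.dem a β / x.Dt a = 2 * x.h * z := by rw [hz]; ring
  have e2 : 2 * x.h * x.t * x.dem a β / x.Dt a = 2 * x.h * x.t * z := by rw [hz]; ring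
  rw [e1] at h2
  rw [e2]
  have htz : 3 * 10 ^ 7 * (x.L : ℝ) ^ 2 ≤ x.t * z := by
    have := mul_le_mul_of_nonneg_left hz1 ht0
    nlinarith
  have h3 : |x.t * ∑ P ∈ range (2 * x.h), x.uP P a β - 2 * x.h * x.t * z| ≤
      x.t * (1 / (10 ^ 4 * x.L ^ 2 * x.h) * (2 * x.h * z)) := by
    have e3 : x.t * ∑ P ∈ range (2 * x.h), x.uP P a β - 2 * x.h * x.t * z =
      x.t * (∑ P ∈ range (2 * x.h), x.uP P a β - 2 * x.h * z) := by ring
    rw [e3, abs_mul, abs_of_nonneg ht0]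
    exact mul_le_mul_of_nonneg_left h2 ht0
  have h4 : |((x.dat φ).kt a β : ℝ) - 2 * x.h * x.t * z| ≤
      2 * x.h + x.t * (1 / (10 ^ 4 * x.L ^ 2 * x.h) * (2 * x.h * z)) := by
    have := abs_sub_le ((x.dat φ).kt a β : ℝ) (x.t * ∑ P ∈ range (2 * x.h), x.uP P a β)
      (2 * x.h * x.t * z)
    linarith
  refine h4.trans ?_
  have hh0 : (0 : ℝ) < x.h := by linarith
  have e4 : x.t * (1 / (10 ^ 4 * x.L ^ 2 * x.h) * (2 * x.h * z)) =
      2 * (x.t * z) / (10 ^ 4 * x.L ^ 2) := by field_simp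
  have e5 : 1 / (10 ^ 4 * (x.L : ℝ) ^ 2) * (2 * x.h * x.t * z) =
      2 * x.h * (x.t * z) / (10 ^ 4 * x.L ^ 2) := by field_simp
  rw [e4, e5]
  have hp : (0 : ℝ) < 10 ^ 4 * x.L ^ 2 := by positivity
  rw [← sub_nonneg]
  have e6 : 2 * x.h * (x.t * z) / (10 ^ 4 * x.L ^ 2) -
      (2 * x.h + 2 * (x.t * z) / (10 ^ 4 * x.L ^ 2)) =
      (2 * x.h * (x.t * z) - 2 * (x.t * z) - 2 * x.h * (10 ^ 4 * x.L ^ 2)) /
        (10 ^ 4 * x.L ^ 2) := by
    field_simp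
    ring
  rw [e6]
  apply div_nonneg _ hp.le
  have htz0 : 0 ≤ x.t * z := by nlinarith [sq_nonneg (x.L : ℝ)]
  have h7 : (2 * x.h - 2) * (x.t * z) ≥ x.h * (x.t * z) := by nlinarith
  have h8 : (x.h : ℝ) * (x.t * z) ≥ x.h * (3 * 10 ^ 7 * (x.L : ℝ) ^ 2) :=
    mul_le_mul_of_nonneg_left htz hh0.le
  nlinarith [sq_nonneg (x.L : ℝ)]

theorem t_VF (hK : S_KTB) (hT : S_TOT) (hC : S_CLD) : S_VF := by
  intro x hx φ hφ s a ha β hβ
  have hβ' : β ∈ x.cls a := hβ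
  have h1 := (hK x hx φ hφ a ha).2 β hβ'
  have hdem := ((hC x hx a ha).2.2.2.2 β hβ').1
  obtain ⟨hD1, hD2⟩ := par_Dt hT x hx a ha
  have hh := par_h x hx
  have hL := par_L x hx
  have ht := hx.t0
  have hm := hx.m0
  have hL0 : (0 : ℝ) < x.L := by linarith
  have hh0 : (0 : ℝ) < x.h := by linarith
  have ht1 : (0 : ℝ) < x.t := by exact_mod_cast hx.t1
  have hD0 : 0 < x.Dt a := by
    have : (1 : ℝ) / (50 * x.L) ≤ 1 / 2 := by
      rw [div_le_div_iff₀ (by positivity) (by norm_num)]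
      linarith
    nlinarith
  have hd0 : 0 < x.dem a β := lt_of_lt_of_le (by positivity) hdem
  have hs1 : s.ω = x.θ / (2 * x.h * x.t) := rfl
  have hs2 : s.ρ1 = 1 / (200 * x.L) := rfl
  have hs3 : s.ρ2 = 1 / (32 * x.L) := rfl
  have hs4 : s.lo x.D a β = s.ω * s.kt a β - x.dem a β := rfl
  -- u = 1 / L
  set u : ℝ := 1 / x.L with hu
  have hu0 : 0 < u := by positivity
  have hu1 : u ≤ 1 / 10000 := by
    rw [hu]
    exact one_div_le_one_div_of_le (by norm_num) hL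
  have f1 : (1 : ℝ) / (50 * x.L) = u / 50 := by rw [hu]; field_simp
  have f2 : (1 : ℝ) / (125 * x.L) = u / 125 := by rw [hu]; field_simp
  have f3 : (1 : ℝ) / (200 * x.L) = u / 200 := by rw [hu]; field_simp
  have f4 : (1 : ℝ) / (32 * x.L) = u / 32 := by rw [hu]; field_simp
  have f5 : (1 : ℝ) / (10 ^ 4 * x.L ^ 2) = u ^ 2 / 10 ^ 4 := by rw [hu]; field_simp
  rw [f1] at hD1
  rw [f2] at hD2
  rw [f5] at h1
  -- r = ω kt / dem
  set r : ℝ := s.ω * s.kt a β with hr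
  have g1 : |x.Dt a * r - x.θ * x.dem a β| ≤ u ^ 2 / 10 ^ 4 * (x.θ * x.dem a β) := by
    have e1 : x.Dt a * r - x.θ * x.dem a β = x.θ / (2 * x.h * x.t) * x.Dt a *
        ((s.kt a β : ℝ) - 2 * x.h * x.t * x.dem a β / x.Dt a) := by
      rw [hr, hs1]
      field_simp
    rw [e1, abs_mul, abs_of_pos (by positivity)]
    calc x.θ / (2 * x.h * x.t) * x.Dt a *
          |(s.kt a β : ℝ) - 2 * x.h * x.t * x.dem a β / x.Dt a|
        ≤ x.θ / (2 * x.h * x.t) * x.Dt a *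
          (u ^ 2 / 10 ^ 4 * (2 * x.h * x.t * x.dem a β / x.Dt a)) :=
          mul_le_mul_of_nonneg_left h1 (by positivity)
      _ = u ^ 2 / 10 ^ 4 * (x.θ * x.dem a β) := by field_simp
  have g2 := abs_le.1 g1
  have hr0 : 0 < r := by
    by_contra hcon
    push Not at hcon
    have : x.Dt a * r ≤ 0 := mul_nonpos_of_nonneg_of_nonpos hD0.le hcon
    have h9 : 0 < x.θ * x.dem a β := by positivity
    have hu3 : u ^ 2 / 10 ^ 4 ≤ 1 / 2 := by nlinarith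
    have h10 := mul_le_mul_of_nonneg_right hu3 h9.le
    linarith [g2.1]
  -- (1) r (1 - u/125) ≥ dem (1 - u²/10^4)
  have k1 : x.dem a β * (1 - u ^ 2 / 10 ^ 4) ≤ r * (1 - u / 125) := by
    have h10 : x.Dt a * r ≤ x.θ * (1 - u / 125) * r := mul_le_mul_of_nonneg_right hD2 hr0.le
    have h11 : x.θ * (x.dem a β * (1 - u ^ 2 / 10 ^ 4)) ≤ x.θ * (r * (1 - u / 125)) := by
      nlinarith [g2.1]
    exact le_of_mul_le_mul_left h11 ht
  have k2 : r * (1 - u / 50) ≤ x.dem a β * (1 + u ^ 2 / 10 ^ 4) := by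
    have h10 : x.θ * (1 - u / 50) * r ≤ x.Dt a * r := mul_le_mul_of_nonneg_right hD1 hr0.le
    have h11 : x.θ * (r * (1 - u / 50)) ≤ x.θ * (x.dem a β * (1 + u ^ 2 / 10 ^ 4)) := by
      nlinarith [g2.2]
    exact le_of_mul_le_mul_left h11 ht
  have hu2 : u ^ 2 / 10 ^ 4 ≤ u / 10 ^ 8 := by nlinarith
  have hur : 0 < u * r := mul_pos hu0 hr0
  have hud : 0 < u * x.dem a β := mul_pos hu0 hd0
  have hw1 : x.dem a β * (u ^ 2 / 10 ^ 4) ≤ u * x.dem a β / 10 ^ 8 := by nlinarith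
  -- dem ≤ 2 r
  have k3 : x.dem a β ≤ 2 * r := by nlinarith
  have k4 : r ≤ 2 * x.dem a β := by nlinarith
  rw [hs2, hs3, hs4, f3, f4]
  have c1 : u / 200 * r ≤ r - x.dem a β := by nlinarith
  refine ⟨c1, ?_, ?_⟩
  · nlinarith
  · nlinarith

end Pool.Agent.H93.HW
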