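import Pool.Agent.H39.HW.SStm
import Pool.Agent.H65.HW.Tools

/-!
# Project HW, scheme side: part PHI (the service)
-/

set_option autoImplicit false
open Classical Finset

namespace Pool.Agent.H93.HW

open Pool.Agent.H39.HW Pool.Agent.H39.HW.Sc

theorem t_PHI (hD : Pool.Agent.H65.HW.S_DEC) (h : S_KKR) : S_PHI := by
  intro x hx
  have ht0 : 0 < x.t := hx.t1
  have key : ∀ P : ℕ, ∃ φ : Fin x.t → {a // a ∈ x.R} → ℕ, P < 2 * x.h →
      (∀ y, Function.Injective (φ y)) ∧ (∀ y a, φ y a < x.B) ∧
      ∀ a b, b < x.B → (univ.filter (fun y : Fin x.t => φ y a = b)).card = x.kk P a.1 b := by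
    intro P
    by_cases hP : P < 2 * x.h
    · obtain ⟨hr, hc⟩ := h x hx P hP
      obtain ⟨φ, hφ1, hφ2⟩ := hD {a // a ∈ x.R} (Fin x.B) (fun a b => x.kk P a.1 b.1) x.t
        (by
          intro a
          rw [← (hr a.1 a.2).1, Finset.sum_range])
        (by
          intro b
          have h1 := hc b.1 b.2
          have he := hx.e0
          have ht : (0 : ℝ) ≤ x.t := Nat.cast_nonneg _
          have h2 : (∑ a : {a // a ∈ x.R}, x.kk P a.1 b.1) = ∑ a ∈ x.R, x.kk P a b.1 := by
            rw [← Finset.sum_coe_sort x.R (fun a => x.kk P a b.1)]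
          rw [h2]
          have h3 : ((∑ a ∈ x.R, x.kk P a b.1 : ℕ) : ℝ) ≤ x.t := by
            push_cast
            nlinarith
          exact_mod_cast h3)
      refine ⟨fun y a => (φ y a).1, fun _ => ⟨?_, fun y a => (φ y a).2, ?_⟩⟩
      · intro y a b hab
        exact hφ1 y (Fin.ext hab)
      · intro a b hb
        rw [← hφ2 a ⟨b, hb⟩]
        congr 1
        ext y
        simp [Fin.ext_iff]
    · exact ⟨fun _ _ => 0, fun h => absurd h hP⟩
  choose φ hφ using key
  refine ⟨fun y a => if ha : a ∈ x.R then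
    φ (y / x.t) ⟨y % x.t, Nat.mod_lt _ ht0⟩ ⟨a, ha⟩ else 0, ?_, ?_⟩
  · intro y hy a ha b hb hab
    have hy' : y / x.t < 2 * x.h := Nat.div_lt_of_lt_mul (by rw [mul_comm]; exact hy)
    simp only [ha, hb, dite_true] at hab
    have h1 := (hφ (y / x.t) hy').1 _ hab
    exact congrArg Subtype.val h1
  · intro P hP a ha β
    by_cases hβ : β < x.B
    · rw [← (hφ P hP).2.2 ⟨a, ha⟩ β hβ]
      symm
      apply Finset.card_bij (fun (j : Fin x.t) _ => P * x.t + j.1)
      · intro j hj
        simp only [Finset.mem_filter, Finset.mem_univ, true_and] at hj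
        have h1 : (P * x.t + j.1) / x.t = P := by
          rw [mul_comm, Nat.mul_add_div ht0, Nat.div_eq_of_lt j.2, add_zero]
        have h2 : (P * x.t + j.1) % x.t = j.1 := by
          rw [mul_comm, Nat.mul_add_mod, Nat.mod_eq_of_lt j.2]
        simp only [Finset.mem_filter, Finset.mem_range]
        refine ⟨?_, h1, ?_⟩
        · have hj2 := j.2
          calc P * x.t + j.1 < P * x.t + x.t := by omega
            _ = (P + 1) * x.t := by ring
            _ ≤ 2 * x.h * x.t := Nat.mul_le_mul_right _ hP
        · simp only [h1, h2, ha, dite_true]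
          simp only [Fin.eta]
          exact hj
      · intro j _ j' _ hjj
        apply Fin.ext
        omega
      · intro y hy
        simp only [Finset.mem_filter, Finset.mem_range] at hy
        obtain ⟨hy1, hy2, hy3⟩ := hy
        refine ⟨⟨y % x.t, Nat.mod_lt _ ht0⟩, ?_, ?_⟩
        · simp only [Finset.mem_filter, Finset.mem_univ, true_and]
          subst hy2
          simp only [ha, dite_true] at hy3
          exact hy3
        · simp only []
          rw [← hy2]
          exact Nat.div_add_mod' y x.t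
    · rw [((h x hx P hP).1 a ha).2.2.2 β (by omega)]
      rw [Finset.card_eq_zero, Finset.filter_eq_empty_iff]
      intro y _ hy2
      obtain ⟨h1, h2⟩ := hy2
      subst h1
      simp only [ha, dite_true] at h2
      have := (hφ (y / x.t) hP).2.1 ⟨y % x.t, Nat.mod_lt _ ht0⟩ ⟨a, ha⟩
      omega

end Pool.Agent.H93.HW
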